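import Mathlib
import Pool.Agent.Schubert.Indep

set_option autoImplicit false

/-!
# Nonnegative elementary-monomial expansions of Schubert polynomials

Variables: `X t` (`t = 0, 1, 2, …`) stands for `x_{t+1}`.

Every standard elementary monomial is a nonnegative combination of Schubert polynomials (Cauchy
identity together with the nonnegativity of the coefficients of Schubert polynomials).  If
`𝔖_w = ∑ c_a e_a` with all `c_a ≥ 0`, comparing coefficients of Schubert polynomials shows that
every `e_a` with `c_a > 0` is a multiple of `𝔖_w`, hence that there is only one such `a`, that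
`c_a = 1` and `𝔖_w = e_a`.
-/

namespace Pool.Agent.Results.MP_c3854d_co.NonnegSEM
open Equiv MvPolynomial

/-- The elementary symmetric polynomial `e^i_j` of degree `j` in the first `i` variables
`x_1, …, x_i` (that is, `X 0, …, X (i-1)`). -/
noncomputable def esymm (i j : ℕ) : MvPolynomial ℕ ℤ :=
  ∑ s ∈ (Finset.range i).powersetCard j, ∏ t ∈ s, X t

/-- Finitely supported sequences `(a_i)` with `0 ≤ a_i ≤ i`. -/
abbrev SEMIndex : Type := {a : ℕ →₀ ℕ // ∀ i, a i ≤ i}

/-- The standard elementary monomial `e_a = e^1_{a_1} e^2_{a_2} e^3_{a_3} ⋯`. -/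
noncomputable def sem (a : SEMIndex) : MvPolynomial ℕ ℤ := a.1.prod (fun i j => esymm i j)

/-- `S : S_n → ℤ[x_1, x_2, …]` is the family of Schubert polynomials of `S_n`:
`S w₀ = x_1^{n-1} x_2^{n-2} ⋯ x_{n-1}` and `S (w s_i) = ∂_i (S w)` whenever `w(i) > w(i+1)`
(equivalently `ℓ(w s_i) = ℓ(w) - 1`), where `∂_i f` is the polynomial `g` with
`(x_i - x_{i+1}) g = f - s_i f`. -/
structure IsSchubertFamily (n : ℕ) (S : Perm (Fin n) → MvPolynomial ℕ ℤ) : Prop where
  top : S Fin.revPerm = ∏ i : Fin n, X (i : ℕ) ^ (n - 1 - (i : ℕ))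
  step : ∀ (w : Perm (Fin n)) (i j : Fin n), (j : ℕ) = i + 1 → w j < w i →
    (X (i : ℕ) - X (j : ℕ)) * S (w * swap i j) = S w - rename (swap (i : ℕ) (j : ℕ)) (S w)

open Pool.Agent.Schubert in
theorem family_P (m : ℕ) : IsSchubertFamily (m + 1) (P m) := by
  constructor
  · unfold P
    rw [PP_top, Fin.prod_univ_eq_prod_range (fun i => (X i : MvPolynomial ℕ ℤ) ^ (m + 1 - 1 - i))
      (m + 1), Finset.prod_range_succ]
    simp
  · intro w i j hij h
    rw [P_swap m i j hij w, if_pos h]

open Pool.Agent.Schubert in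
theorem family_eq_P (m : ℕ) (S : Perm (Fin (m + 1)) → MvPolynomial ℕ ℤ)
    (hS : IsSchubertFamily (m + 1) S) : S = P m := by
  have key : ∀ x : Lex (Fin (m + 1) → Fin (m + 1)), ∀ u : Perm (Fin (m + 1)),
      toLex (⇑u) = x → S u = P m u := by
    intro x
    induction x using WellFoundedGT.induction with
    | ind x ih =>
      intro u hu
      by_cases h1 : u = Fin.revPerm
      · rw [h1, hS.top, (family_P m).top]
      · obtain ⟨a, b, hab, hasc⟩ := exists_ascent h1
        have hw' : (u * swap a b) b < (u * swap a b) a := by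
          simpa [Perm.mul_apply] using hasc
        have h2 := lex_lt_of_descent (u * swap a b) a b hab hw'
        rw [mul_assoc, swap_mul_self, mul_one, hu] at h2
        have h3 := ih _ h2 (u * swap a b) rfl
        have h4 := hS.step (u * swap a b) a b hab hw'
        have h5 := (family_P m).step (u * swap a b) a b hab hw'
        rw [mul_assoc, swap_mul_self, mul_one] at h4 h5
        rw [h3, ← h5] at h4
        have h6 : (X (a : ℕ) - X (b : ℕ) : MvPolynomial ℕ ℤ) ≠ 0 := by
          intro h
          rw [sub_eq_zero] at h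
          have := X_injective h
          omega
        exact mul_left_cancel₀ h6 h4
  funext u
  exact key _ u rfl

/-- Values of `e^i_j` at a `0/1`-point: comparison. -/
theorem esymm_eval_le (i j : ℕ) (p : ℕ → ℤ) (hp0 : ∀ t, 0 ≤ p t) (hp1 : ∀ t, p t ≤ 1) :
    0 ≤ eval p (esymm i j) ∧ eval p (esymm i j) ≤ eval (fun _ => 1) (esymm i j) := by
  unfold esymm
  simp only [map_sum, map_prod, eval_X]
  constructor
  · exact Finset.sum_nonneg (fun s _ => Finset.prod_nonneg (fun t _ => hp0 t))
  · exact Finset.sum_le_sum (fun s _ => Finset.prod_le_prod (fun t _ => hp0 t) (fun t _ => hp1 t))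

theorem esymm_one_pos (i j : ℕ) (hij : j ≤ i) : 0 < eval (fun _ => (1 : ℤ)) (esymm i j) := by
  unfold esymm
  simp only [map_sum, map_prod, eval_X, Finset.prod_const_one, Finset.sum_const,
    Finset.card_powersetCard, Finset.card_range, nsmul_eq_mul, mul_one]
  exact_mod_cast Nat.choose_pos hij

theorem esymm_eval_lt (i j m : ℕ) (hm : m < i) (hj : j ≤ i) (hj0 : j ≠ 0) :
    eval (fun t => if t < m then (1 : ℤ) else 0) (esymm i j) <
      eval (fun _ => (1 : ℤ)) (esymm i j) := by
  unfold esymm
  simp only [map_sum, map_prod, eval_X]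
  apply Finset.sum_lt_sum
  · intro s _
    exact Finset.prod_le_prod (fun t _ => by split_ifs <;> norm_num)
      (fun t _ => by split_ifs <;> norm_num)
  · refine ⟨Finset.Ico (i - j) i, ?_, ?_⟩
    · rw [Finset.mem_powersetCard]
      refine ⟨fun t ht => ?_, ?_⟩
      · rw [Finset.mem_Ico] at ht
        exact Finset.mem_range.2 ht.2
      · rw [Nat.card_Ico]; omega
    · rw [Finset.prod_const_one, Finset.prod_eq_zero (i := i - 1)]
      · norm_num
      · rw [Finset.mem_Ico]; omega
      · rw [if_neg (by omega)]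

theorem sem_eval (a : SEMIndex) (p : ℕ → ℤ) :
    eval p (sem a) = ∏ i ∈ a.1.support, eval p (esymm i (a.1 i)) := by
  unfold sem
  rw [Finsupp.prod, map_prod]

theorem sem_eval_le (a : SEMIndex) (p : ℕ → ℤ) (hp0 : ∀ t, 0 ≤ p t) (hp1 : ∀ t, p t ≤ 1) :
    eval p (sem a) ≤ eval (fun _ => 1) (sem a) := by
  rw [sem_eval, sem_eval]
  exact Finset.prod_le_prod (fun i _ => (esymm_eval_le i _ p hp0 hp1).1)
    (fun i _ => (esymm_eval_le i _ p hp0 hp1).2)

theorem sem_eval_pos (a : SEMIndex) : 0 < eval (fun _ => (1 : ℤ)) (sem a) := by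
  rw [sem_eval]
  exact Finset.prod_pos (fun i _ => esymm_one_pos i _ (a.2 i))

theorem sem_eval_lt (a : SEMIndex) (m k : ℕ) (hk : m < k) (hak : a.1 k ≠ 0) :
    eval (fun t => if t < m then (1 : ℤ) else 0) (sem a) < eval (fun _ => (1 : ℤ)) (sem a) := by
  rw [sem_eval, sem_eval]
  have hmem : k ∈ a.1.support := Finsupp.mem_support_iff.2 hak
  rw [← Finset.mul_prod_erase _ _ hmem, ← Finset.mul_prod_erase _ _ hmem]
  have hp0 : ∀ t : ℕ, (0 : ℤ) ≤ if t < m then 1 else 0 := fun t => by split_ifs <;> norm_num
  have hp1 : ∀ t : ℕ, (if t < m then (1 : ℤ) else 0) ≤ 1 := fun t => by split_ifs <;> norm_num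
  have h1 := esymm_eval_lt k (a.1 k) m hk (a.2 k) hak
  have h0 := (esymm_eval_le k (a.1 k) _ hp0 hp1).1
  have h2 : ∏ i ∈ a.1.support.erase k,
      eval (fun t => if t < m then (1 : ℤ) else 0) (esymm i (a.1 i)) ≤
      ∏ i ∈ a.1.support.erase k, eval (fun _ => (1 : ℤ)) (esymm i (a.1 i)) :=
    Finset.prod_le_prod (fun i _ => (esymm_eval_le i _ _ hp0 hp1).1)
      (fun i _ => (esymm_eval_le i _ _ hp0 hp1).2)
  have h3 : 0 < ∏ i ∈ a.1.support.erase k, eval (fun _ => (1 : ℤ)) (esymm i (a.1 i)) :=
    Finset.prod_pos (fun i _ => esymm_one_pos i _ (a.2 i))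
  calc _ ≤ eval (fun t => if t < m then (1 : ℤ) else 0) (esymm k (a.1 k)) *
        ∏ i ∈ a.1.support.erase k, eval (fun _ => (1 : ℤ)) (esymm i (a.1 i)) :=
      mul_le_mul_of_nonneg_left h2 h0
    _ < _ := mul_lt_mul_of_pos_right h1 h3

open Pool.Agent.Schubert in
theorem core (m : ℕ) (w : Perm (Fin (m + 1))) (c : SEMIndex →₀ ℤ) (hc : ∀ a, 0 ≤ c a)
    (h : P m w = c.sum (fun a k => C k * sem a)) :
    ∃ a : SEMIndex, c = Finsupp.single a 1 ∧ P m w = sem a := by
  have hcpos : ∀ a ∈ c.support, 0 < c a := fun a ha =>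
    lt_of_le_of_ne (hc a) (Ne.symm (Finsupp.mem_support_iff.1 ha))
  have hp0 : ∀ t : ℕ, (0 : ℤ) ≤ if t < m then 1 else 0 := fun t => by split_ifs <;> norm_num
  have hp1 : ∀ t : ℕ, (if t < m then (1 : ℤ) else 0) ≤ 1 := fun t => by split_ifs <;> norm_num
  -- only the variables `X 0, …, X (m-1)` occur
  have h1 : ∀ a ∈ c.support, ∀ k, m < k → a.1 k = 0 := by
    have hev : eval (fun t => if t < m then (1 : ℤ) else 0) (P m w) =
        eval (fun _ => (1 : ℤ)) (P m w) := by
      apply eval₂Hom_congr' rfl _ rfl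
      intro i hi _
      have := PP_supported (R := ℤ) m w
      rw [mem_supported] at this
      have h2 := this hi
      simp only [Set.mem_ofPred_eq] at h2
      rw [if_pos h2]
    rw [h, Finsupp.sum, map_sum, map_sum] at hev
    simp only [map_mul, eval_C] at hev
    have h2 : ∀ a ∈ c.support, c a * eval (fun t => if t < m then (1 : ℤ) else 0) (sem a) =
        c a * eval (fun _ => (1 : ℤ)) (sem a) := by
      rw [← Finset.sum_eq_sum_iff_of_le]
      · exact hev
      · intro a _
        exact mul_le_mul_of_nonneg_left (sem_eval_le a _ hp0 hp1) (hc a)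
    intro a ha k hk
    by_contra hak
    have h3 := mul_left_cancel₀ (hcpos a ha).ne' (h2 a ha)
    exact absurd h3 (sem_eval_lt a m k hk hak).ne
  -- expansion of each `sem a`
  have h2 : ∀ a ∈ c.support, ∃ M : Perm (Fin (m + 1)) → ℤ, (∀ u, 0 ≤ M u) ∧
      sem a = ∑ u, C (M u) * P m u := by
    intro a ha
    obtain ⟨M, hM0, hM⟩ := sem_expand m a.1 (fun k _ => a.2 k)
    refine ⟨M, hM0, ?_⟩
    rw [← hM]
    unfold sem
    rw [Finsupp.prod_of_support_subset (s := Finset.range (m + 1))]
    · rfl
    · intro k hk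
      rw [Finset.mem_range]
      by_contra hk'
      exact Finsupp.mem_support_iff.1 hk (h1 a ha k (by omega))
    · intro k _
      unfold esymm
      simp
  choose! M hM0 hM using h2
  -- comparison of coefficients
  have h3 : ∀ u, ∑ a ∈ c.support, c a * M a u = if u = w then 1 else 0 := by
    intro u
    have h4 : ∑ u, C (∑ a ∈ c.support, c a * M a u - if u = w then 1 else 0) * P m u = 0 := by
      simp only [C_sub, sub_mul, Finset.sum_sub_distrib]
      have e1 : ∑ u, (C (if u = w then (1 : ℤ) else 0) : MvPolynomial ℕ ℤ) * P m u = P m w := by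
        rw [Finset.sum_eq_single w]
        · simp
        · intro v _ hv
          simp [hv]
        · intro h; exact absurd (Finset.mem_univ w) h
      rw [e1, h, Finsupp.sum, sub_eq_zero]
      simp only [map_sum, C_mul, Finset.sum_mul]
      rw [Finset.sum_comm]
      apply Finset.sum_congr rfl
      intro a ha
      conv_rhs => rw [hM a ha]
      rw [Finset.mul_sum]
      simp only [mul_assoc]
    have := P_indep m _ h4 u
    exact sub_eq_zero.1 this
  have h4 : ∀ a ∈ c.support, ∀ u, u ≠ w → M a u = 0 := by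
    intro a ha u hu
    have h5 := h3 u
    rw [if_neg hu] at h5
    rw [Finset.sum_eq_zero_iff_of_nonneg (fun a ha => mul_nonneg (hc a) (hM0 a ha u))] at h5
    rcases mul_eq_zero.1 (h5 a ha) with h6 | h6
    · exact absurd h6 (hcpos a ha).ne'
    · exact h6
  have h5 : ∀ a ∈ c.support, sem a = C (M a w) * P m w := by
    intro a ha
    conv_lhs => rw [hM a ha]
    apply Finset.sum_eq_single w
    · intro u _ hu
      rw [h4 a ha u hu, C_0, zero_mul]
    · intro h; exact absurd (Finset.mem_univ w) h
  have h6 : ∀ a ∈ c.support, 1 ≤ M a w := by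
    intro a ha
    have h7 : M a w ≠ 0 := by
      intro h8
      have h9 := sem_eval_pos a
      rw [h5 a ha, h8] at h9
      simp at h9
    have := hM0 a ha w
    omega
  have h7 := h3 w
  rw [if_pos rfl] at h7
  have hne : c.support.Nonempty := by
    rw [Finset.nonempty_iff_ne_empty]
    intro he
    rw [he] at h7
    simp at h7
  obtain ⟨a, ha⟩ := hne
  have h8 : ∀ b ∈ c.support, 1 ≤ c b * M b w := by
    intro b hb
    have := hcpos b hb
    have := h6 b hb
    nlinarith
  have h9 : c.support = {a} := by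
    by_contra hne
    obtain ⟨b, hb, hba⟩ : ∃ b ∈ c.support, b ≠ a := by
      by_contra hcon
      apply hne
      ext b
      rw [Finset.mem_singleton]
      constructor
      · intro hb
        by_contra hba
        exact hcon ⟨b, hb, hba⟩
      · rintro rfl; exact ha
    have h10 : c b * M b w + c a * M a w ≤ ∑ a ∈ c.support, c a * M a w := by
      rw [← Finset.add_sum_erase _ _ ha]
      have h11 : b ∈ c.support.erase a := Finset.mem_erase.2 ⟨hba, hb⟩
      rw [← Finset.add_sum_erase _ _ h11]
      have h12 : 0 ≤ ∑ x ∈ (c.support.erase a).erase b, c x * M x w :=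
        Finset.sum_nonneg (fun x hx => by
          have := h8 x (Finset.mem_of_mem_erase (Finset.mem_of_mem_erase hx))
          omega)
      linarith
    have := h8 a ha
    have := h8 b hb
    omega
  rw [h9, Finset.sum_singleton] at h7
  have h10 := hcpos a ha
  have h11 := h6 a ha
  have h12 : c a = 1 := by nlinarith
  have h13 : M a w = 1 := by rw [h12, one_mul] at h7; exact h7
  refine ⟨a, ?_, ?_⟩
  · rw [Finsupp.eq_single_iff]
    exact ⟨h9.le, h12⟩
  · rw [h5 a ha, h13, C_1, one_mul]

/-- Schubert polynomials exist and are unique, and if a Schubert polynomial `S w` is written as a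
combination `∑ c_a e_a` of standard elementary monomials with all `c_a ≥ 0`, then this
combination is a single standard elementary monomial with coefficient `1`. -/
theorem result (n : ℕ) :
    (∃! S : Perm (Fin n) → MvPolynomial ℕ ℤ, IsSchubertFamily n S) ∧
      ∀ S : Perm (Fin n) → MvPolynomial ℕ ℤ, IsSchubertFamily n S →
        ∀ (w : Perm (Fin n)) (c : SEMIndex →₀ ℤ), (∀ a, 0 ≤ c a) →
          S w = c.sum (fun a k => C k * sem a) →
            ∃ a : SEMIndex, c = Finsupp.single a 1 ∧ S w = sem a := by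
  cases n with
  | zero =>
    constructor
    · refine ⟨fun _ => 1, ⟨by simp, fun w i => i.elim0⟩, ?_⟩
      intro S hS
      funext w
      rw [Subsingleton.elim w Fin.revPerm, hS.top]
      simp
    · intro S hS w c hc h
      have h1 : S w = Schubert.P 0 1 := by
        rw [Subsingleton.elim w Fin.revPerm, hS.top]
        have : (1 : Perm (Fin (0 + 1))) = Fin.revPerm :=
          Equiv.ext (fun x => Fin.ext (by omega))
        rw [this, (family_P 0).top]
        simp
      rw [h1] at h ⊢
      exact core 0 1 c hc h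
  | succ m =>
    constructor
    · exact ⟨Schubert.P m, family_P m, fun S hS => family_eq_P m S hS⟩
    · intro S hS w c hc h
      rw [family_eq_P m S hS] at h ⊢
      exact core m w c hc h

end Pool.Agent.Results.MP_c3854d_co.NonnegSEM
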